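import Mathlib
import Pool.Agent.Helper47.GL.Fin

/-!
# Every everywhere locally soluble curve over a number field has everywhere locally soluble cyclic covers without sections

Let `k` be a number field and `ℓ` a prime number that does not divide the degree of `k`.  Let `X` be a
smooth projective geometrically connected curve over `k`, of any genus, and let `x` be a nonconstant
function on `X`.  There is a function `y`, integral over `𝓞_k[x]`, with `k(X) = k(x, y)`; so `X` is the
smooth projective model of a plane curve `G(x, y) = 0`, where `G ∈ 𝓞_k[x][y]` is monic in `y` and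
irreducible over the algebraic closure of `k`.  Suppose that `X` has points over all completions of
`k`.  We show: for every finite set `S` of places, which contains all infinite places, all points
`P_v ∈ X(k_v)`, `v ∈ S`, of the affine model with `∂G/∂y ≠ 0`, and every `N`, there are a prime number
`r > N` and a separable polynomial `f ∈ k[x]` of a degree at least `N` and divisible by `ℓ` such that the
curves

  `C : r w^ℓ = f(x)`   and   `Y : r w^ℓ = f(x), G(x, y) = 0`,

(`Y` is a cyclic cover of degree `ℓ` of `X`, and a cover of the superelliptic curve `C`) have the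
following properties.

* `Y` is geometrically irreducible, and has points over all completions of `k`, and the given points
  `P_v`, `v ∈ S`, lift to `Y`.
* Over every number field `L ⊇ k` such that `ℓ` does not divide `[L : k]`, for instance over `L = k`:
  the curve `C`, hence `Y`, has no rational point, and there is no section of the fundamental group of
  `C`, of `Y`, of open subcurves of `C` and `Y`, or of any curve over `L` which dominates `C`.

So the section conjecture is true for `Y` over all these fields `L` (and the Hasse principle fails for
`Y`): every everywhere locally soluble curve over a number field is dominated by everywhere locally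
soluble curves for which the section conjecture is true, with prescribed local behaviour at finitely
many places.

The fundamental group is described through valuations.  Let `U` be a smooth geometrically connected
curve over `k` with function field `F`, let `Ω` be an algebraic closure of `F`, and let `F_U` be the
maximal extension of `F` inside `Ω` which is unramified over the closed points of `U`, that is, over
their local rings, which are valuation rings of `F`.  Then `π₁(U) = Gal(F_U/F)`, and the map
`π₁(U) → G_k` is the restriction of automorphisms to the algebraic closure of `k` in `Ω`.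

Proof.  Let `K_0, …, K_ℓ` be the `ℓ + 1` cyclic fields of degree `ℓ` in the field of the `pq`-th roots of
unity, where `p` and `q` are prime numbers, `p ≡ q ≡ 1` modulo `2 ℓ`, such that `q` is an `ℓ`-th power
modulo `p` and `p` is one modulo `q`; so every completion of `ℚ` contains one of these fields.  Let `P_i`
be the minimal polynomial of an integer that generates `K_i`, let `F_0` be the product of the polynomials
`P_i(x - c)`, `0 ≤ c < M`, where `ℓ ∣ M`, and let `f = F_0(x - a)`, `a ∈ k`.  The absence of sections over
`L` follows for all `a` from library results on the descent of sections, if the prime `r` satisfies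
congruences modulo `p` and `q`.  Every `F_0` has a simple zero in every completion `k_v`, so `F_0`
takes a value `r s^ℓ`, `s ≠ 0`, at some `u ∈ k_v`.  If `v` belongs to a certain finite set `T ⊇ S` of
places then we take `a` so close to `x(P_v) - u` that `P_v` lifts to `Y`.  At the other places `a` is
integral and the reduction of `f` is separable of a degree that is larger than the degree of the
discriminant of `G`.  So the reduction of `Y` is geometrically irreducible and has smooth points by the
bound of Weil; this bound is proved here for the plane curves that occur, with a norm argument that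
reduces it to its known case of plane curves (library) and does not need roots of unity.  At the
infinite places `a` is large.
-/

set_option autoImplicit false

open Polynomial NumberField IsDedekindDomain

namespace Pool.Agent.Results.MP_2f3286_ag.CyclicCoversOfAllCurves

universe u v w

section curves

variable {k : Type} [Field k] [NumberField k]

/-- `(x, y)` is a point over the extension `K` of `k` of the plane curve `G(x, y) = 0` with
`∂G/∂y ≠ 0`, that is, a point of the affine curve at which the function `x` is unramified. -/
def Pt (G : (𝓞 k)[X][X]) {K : Type*} [Field K] (φ : k →+* K) (x y : K) : Prop :=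
  (G.map (mapRingHom (φ.comp (algebraMap (𝓞 k) k)))).evalEval x y = 0 ∧
    ((derivative G).map (mapRingHom (φ.comp (algebraMap (𝓞 k) k)))).evalEval x y ≠ 0

/-- The curve `X` with the equation `G(x, y) = 0` has points over all completions of `k`.  (If the
smooth projective model of `G(x, y) = 0` has a point over a completion `K`, then it has infinitely
many, and all but finitely many of them belong to points `(x, y) ∈ K²` with `∂G/∂y ≠ 0`.  Conversely all
such points are points of the smooth projective model.) -/
def LocallySoluble (G : (𝓞 k)[X][X]) : Prop :=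
  (∀ v : HeightOneSpectrum (𝓞 k), ∃ x y : v.adicCompletion k,
    Pt G (algebraMap k (v.adicCompletion k)) x y) ∧
  ∀ v : InfinitePlace k, ∃ x y : v.Completion, Pt G (algebraMap k v.Completion) x y

variable (r ℓ : ℕ) (f : k[X])

/-- The points over `x` lift to the cyclic cover `r w^ℓ = f(x)`. -/
def Lifts {K : Type*} [Field K] (φ : k →+* K) (x : K) : Prop :=
  ∃ w : K, w ≠ 0 ∧ (r : K) * w ^ ℓ = eval₂ φ x f

/-- The cyclic cover `Y : r w^ℓ = f(x), G(x, y) = 0` of `X` has points over all completions of `k`. -/
def CoverLocallySoluble (G : (𝓞 k)[X][X]) : Prop :=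
  (∀ v : HeightOneSpectrum (𝓞 k), ∃ x y : v.adicCompletion k,
    Pt G (algebraMap k (v.adicCompletion k)) x y ∧
      Lifts r ℓ f (algebraMap k (v.adicCompletion k)) x) ∧
  ∀ v : InfinitePlace k, ∃ x y : v.Completion,
    Pt G (algebraMap k v.Completion) x y ∧ Lifts r ℓ f (algebraMap k v.Completion) x

/-- The cyclic cover `Y : r w^ℓ = f(x), G(x, y) = 0` of `X : G(x, y) = 0`, `ℓ` a prime, is geometrically
irreducible: `f(x)/r` is no `ℓ`-th power in the function field `K(x, y)` of `X`, where `K` is an
algebraic closure of `k`. -/
def CoverGeometricallyIrreducible (G : (𝓞 k)[X][X]) : Prop :=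
  ∀ (E : Type u) [Field E] [Algebra (AlgebraicClosure k) E] (x y : E),
    Transcendental (AlgebraicClosure k) x →
    (G.map (mapRingHom ((algebraMap (AlgebraicClosure k) E).comp
      (algebraMap (𝓞 k) (AlgebraicClosure k))))).evalEval x y = 0 →
    ∀ w ∈ IntermediateField.adjoin (AlgebraicClosure k) {x, y}, (r : E) * w ^ ℓ ≠
      eval₂ ((algebraMap (AlgebraicClosure k) E).comp (algebraMap k (AlgebraicClosure k))) x f

/-- The smooth projective curve `C : r w^ℓ = f(x)`, `f` monic, separable and of a degree divisible by
`ℓ`, has no point over the extension `L` of `k`: there is no such point on the affine curve, and no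
such point at infinity; these points correspond to the `ℓ`-th roots of `1 / r`. -/
def NoRationalPoint (L : Type) [Field L] [Algebra k L] : Prop :=
  (∀ x w : L, (r : L) * w ^ ℓ ≠ aeval x f) ∧ ∀ ρ : L, ρ ^ ℓ ≠ r

end curves

section definitions

variable (k : Type u) (F : Type v) (Ω : Type w) [Field k] [Field F] [Field Ω] [Algebra k F]
  [Algebra F Ω] [Algebra k Ω]

/-- The inertia group of the valuation ring `W` of `Ω`, as a subgroup of `Gal(Ω/F)`: the
automorphisms of `Ω` over `F` that map `W` onto itself and act as the identity on its residue
field. -/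
noncomputable def inertia (W : ValuationSubring Ω) : Subgroup (Ω ≃ₐ[F] Ω) :=
  (W.inertiaSubgroup F).map (W.decompositionSubgroup F).subtype

/-- `F_U`, for a set `U` of valuation rings of `F`: the elements of `Ω` fixed by the inertia groups
of all valuation rings `W` of `Ω` with `W ∩ F ∈ U`.  If `Ω` is an algebraic closure of a field `F`
of characteristic zero, this is the maximal extension of `F` in `Ω` unramified over `U`. -/
noncomputable def unramified (U : Set (ValuationSubring F)) : IntermediateField F Ω :=
  ⨅ W : {W : ValuationSubring Ω // W.comap (algebraMap F Ω) ∈ U},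
    IntermediateField.fixedField (inertia F Ω W.1)

/-- The map `τ : M → M` acts as `σ : K → K` on the elements that the fields `K` and `M` have in
common when they are regarded as subfields of `Ω` through `i` and `j`. -/
def ActsAs {K M Ω : Type*} [Field K] [Field M] [Field Ω] (i : K →+* Ω) (j : M →+* Ω) (σ : K → K)
    (τ : M → M) : Prop :=
  ∀ c z, j z = i c → j (τ z) = i (σ c)

/-- Let `k ⊆ K ⊆ Ω` and `F ⊆ M ⊆ Ω` be fields.  A splitting of `Gal(M/F) → Gal(K/k)`: a continuous
homomorphism `s` from `Gal(K/k)` to `Gal(M/F)` such that `s(σ)` acts as `σ` on the elements of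
`K ∩ M`. -/
structure Splitting (K M : Type*) [Field K] [Field M] [Algebra k K] [Algebra F M] [Algebra K Ω]
    [Algebra M Ω] where
  /-- the homomorphism `Gal(K/k) → Gal(M/F)` -/
  toHom : (K ≃ₐ[k] K) →* (M ≃ₐ[F] M)
  cont : Continuous toHom
  compat : ∀ σ : K ≃ₐ[k] K, ActsAs (algebraMap K Ω) (algebraMap M Ω) σ (toHom σ)

/-- The sections of `π₁(U) = Gal(F_U/F) → G_k`: the continuous homomorphisms `s` from
`G_k = Gal(k̄/k)` to `Gal(F_U/F)`, where `k̄` is the algebraic closure of `k` in `Ω`, such that
`s(σ)` acts as `σ` on the elements of `k̄`. -/
def GaloisSection (U : Set (ValuationSubring F)) : Type w :=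
  Splitting k F Ω (algebraicClosure k Ω) (unramified F Ω U)

end definitions

/-- Let `F` be any field over the extension `L` of `k` that contains a point `(x, w)` of the curve
`C : r w^ℓ = f(x)` with `x` transcendental over `L`, for instance the function field of `C` over `L`, of the
cyclic cover `Y : r w^ℓ = f(x), G(x, y) = 0` of `X` over `L`, or of a curve over `L` that dominates `C` or
`Y`, and let `Ω` be an algebraic closure of `F`.  Then for every set `U` of valuation rings of `F` over `L`
there is no section of `π₁(U) → G_L`.  If `F` is the function field of a curve over `L`, such `U` are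
given by its smooth projective model and by all open subcurves of it. -/
def NoSection {k : Type} [Field k] (r ℓ : ℕ) (f : k[X]) (L : Type) [Field L] [Algebra k L] : Prop :=
  ∀ (F : Type v) (Ω : Type w) [Field F] [Field Ω] [Algebra L F] [Algebra F Ω] [Algebra L Ω]
    [IsScalarTower L F Ω] [IsAlgClosure F Ω] (x w : F) (U : Set (ValuationSubring F)),
    Transcendental L x → (r : F) * w ^ ℓ = aeval x (f.map (algebraMap k L)) →
    (∀ O ∈ U, ∀ c : L, algebraMap L F c ∈ O) → IsEmpty (GaloisSection L F Ω U)

/-- **Every everywhere locally soluble curve over a number field has everywhere locally soluble cyclic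
covers without sections.**  Let `ℓ` be a prime number, `k` a number field of a degree not divisible by
`ℓ`, and `X` the curve with the equation `G(x, y) = 0`, `G ∈ 𝓞_k[x][y]` monic in `y` and irreducible over
the algebraic closure of `k`.  Let `X` have points over all completions of `k`, let `S` be a finite
set of finite places, and let `P_v ∈ X(k_v)` be points at the places `v ∈ S` and at all infinite
places `v`.  For every `N` there are a prime number `r > N` and a monic separable polynomial `f` over `k`
of a degree `≥ N` divisible by `ℓ` such that the cyclic cover `Y : r w^ℓ = f(x), G(x, y) = 0` of `X` is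
geometrically irreducible, has points over all completions of `k`, and the points `P_v` lift to `Y`;
and over every number field `L ⊇ k` such that `ℓ` does not divide `[L : k]` neither `Y` nor the curve
`C : r w^ℓ = f(x)` nor any curve over `L` that dominates `C` has a rational point or a section. -/
theorem result (k : Type) [Field k] [NumberField k] (ℓ : ℕ) (hℓ : ℓ.Prime)
    (hk : ¬ ℓ ∣ Module.finrank ℚ k) (G : (𝓞 k)[X][X]) (hG : G.Monic)
    (hirr : Irreducible (G.map (mapRingHom (algebraMap (𝓞 k) (AlgebraicClosure k)))))
    (hX : LocallySoluble G) (S : Finset (HeightOneSpectrum (𝓞 k)))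
    (P : ∀ v : HeightOneSpectrum (𝓞 k), v.adicCompletion k × v.adicCompletion k)
    (hP : ∀ v ∈ S, Pt G (algebraMap k (v.adicCompletion k)) (P v).1 (P v).2)
    (P' : ∀ v : InfinitePlace k, v.Completion × v.Completion)
    (hP' : ∀ v, Pt G (algebraMap k v.Completion) (P' v).1 (P' v).2) (N : ℕ) :
    ∃ (r : ℕ) (f : k[X]), r.Prime ∧ N < r ∧ f.Monic ∧ f.Separable ∧ N ≤ f.natDegree ∧
      ℓ ∣ f.natDegree ∧ CoverGeometricallyIrreducible.{u} r ℓ f G ∧ CoverLocallySoluble r ℓ f G ∧
      (∀ v ∈ S, Lifts r ℓ f (algebraMap k (v.adicCompletion k)) (P v).1) ∧
      (∀ v : InfinitePlace k, Lifts r ℓ f (algebraMap k v.Completion) (P' v).1) ∧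
      ∀ (L : Type) [Field L] [NumberField L] [Algebra k L], ¬ ℓ ∣ Module.finrank k L →
        NoRationalPoint r ℓ f L ∧ NoSection.{v, w} r ℓ f L := by
  classical
  have : Fact ℓ.Prime := ⟨hℓ⟩
  have hφ : ∀ v : HeightOneSpectrum (𝓞 k), (algebraMap k (v.adicCompletion k)).comp
      (algebraMap (𝓞 k) k) = algebraMap (𝓞 k) (v.adicCompletion k) := fun v =>
    (IsScalarTower.algebraMap_eq _ _ _).symm
  have hpts : ∀ v : HeightOneSpectrum (𝓞 k), ∃ z : v.adicCompletion k × v.adicCompletion k,
      Pool.Agent.Helper47.GL.PtK G (algebraMap (𝓞 k) (v.adicCompletion k)) z.1 z.2 ∧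
        (v ∈ S → z = P v) := by
    intro v
    by_cases hvS : v ∈ S
    · have h1 := hP v hvS
      rw [Pt, hφ] at h1
      exact ⟨P v, h1, fun _ => rfl⟩
    · obtain ⟨x, y, hxy⟩ := hX.1 v
      rw [Pt, hφ] at hxy
      exact ⟨(x, y), hxy, fun h => absurd h hvS⟩
  choose z hz hzS using hpts
  obtain ⟨p, q, hp, hq, χ, ψ, θ, M, r, a, -, -, hGood, hθ, hNM, hℓM, hM0, hr, hNr, hb, h1, h2, h3,
    h4⟩ := Pool.Agent.Helper47.GL.final.{u} (k := k) hk G hG hirr S (fun v => (z v).1)
      (fun v => (z v).2) hz (fun v => (P' v).1) N
  have hfac := Pool.Agent.Helper47.GL.GS_factor hGood hθ hb M a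
  have hsep := Pool.Agent.K3h48.MN.final_separable hGood hθ hb
    (Pool.Agent.Helper47.GL.GS θ M a) hfac
  set f : k[X] := ∏ i, ∏ g ∈ Pool.Agent.Helper47.GL.GS θ M a i, g with hf
  have hdeg : f.natDegree = ℓ * ((ℓ + 1) * M) := by
    rw [hsep.2]
    congr 1
    rw [Finset.sum_congr rfl fun i _ => Pool.Agent.Helper47.GL.GS_card M a i, Finset.sum_const,
      smul_eq_mul, Finset.card_univ, Fintype.card_option, ZMod.card]
  refine ⟨r, f, hr, hNr, ?_, hsep.1, ?_, ?_, h4, ⟨?_, ?_⟩, ?_, h3, ?_⟩
  · exact monic_prod_of_monic _ _ fun i _ => monic_prod_of_monic _ _ fun g hg =>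
      (hfac i g hg).monic
  · rw [hdeg, ← mul_assoc]
    refine hNM.trans (Nat.le_mul_of_pos_left _ ?_)
    have := hℓ.pos
    positivity
  · rw [hdeg]
    exact Dvd.intro _ rfl
  · intro v
    obtain ⟨x, y, w, h5, h6, h7⟩ := h1 v
    refine ⟨x, y, ?_, w, h6, h7⟩
    rw [Pt, hφ]
    exact h5
  · intro v
    exact ⟨(P' v).1, (P' v).2, hP' v, h3 v⟩
  · intro v hv
    obtain ⟨w, h6, h7⟩ := h2 v hv
    refine ⟨w, h6, ?_⟩
    rw [h7, hzS v hv]
  · intro L _ _ _ hL
    refine ⟨⟨?_, ?_⟩, ?_⟩
    · exact Pool.Agent.Helper47.GL.no_points hGood hθ hb M a L hL
    · exact Pool.Agent.Helper47.GL.no_infinity hGood hθ hb L hL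
    · intro F Ω _ _ _ _ _ _ _ x w U hx hxw hU
      have := IsAlgClosure.isAlgClosed (K := Ω) F
      have := IsAlgClosure.isAlgebraic (R := F) (K := Ω)
      have h5 := Pool.Agent.Helper47.GL.no_section (F := F) (Ω := Ω) hGood hθ hb hℓM a L hL x w hx
        hxw U hU
      exact ⟨fun s => h5.false ⟨s.toHom, s.cont, s.compat⟩⟩

end Pool.Agent.Results.MP_2f3286_ag.CyclicCoversOfAllCurves
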