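import Pool.Agent.Helper88.MU.Emb
import Pool.Agent.Helper88.MU.Main
import Pool.Agent.Helper31.MT.Ext

/-!
# Sections which lift modulo two are geometric or cuspidal

Let `k` be a number field, or any field which is finitely generated over `ℚ`, `U` a smooth geometrically
connected curve over `k`, with the function field `F`, and `F'/F` any Galois extension which contains the
algebraic closure `kbar` of `k`; for instance the maximal extension `F_U` of `F` which is unramified over
`U`, with `Gal(F_U/F) = π₁(U)`, or a quotient of it, or simply `F' = F kbar`. Let `s` be a section of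
`Gal(F'/F) → G_k`. We consider two extensions:

* `F₁/F`, the extension generated over `F'` by the square roots of all elements of `F'`;
* `F₂/F(t)`, the extension generated over `F'(t)` by all `√(x + y √z)`, with `x, y, z` in `F'(t)`.

So `Gal(F₁/F')` is an elementary abelian 2-group, and `Gal(F₂/F'(t))` is a pro-2-group of class at most 2
and exponent dividing 4 (the quotient which classifies the extensions of `F'(t)` with the groups `ℤ/2`,
`ℤ/4` and `D₄`, the third term of the mod 2 Zassenhaus filtration).

**Theorem.** Suppose that `s` lifts to a section `s₁` of `Gal(F₁/F) → G_k`, and the base change of `s₁` to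
`k(t)` lifts to a section `s₂` of `Gal(F₂/F(t))`. Then `s` arises from a rational point `x` of the
smooth compactification of `U`: the image of `s` is in the decomposition group of a valuation ring of
`F'` above `x`. So for `F' = F_U` the section `s` is the section of a rational point of `U` or it is
cuspidal. Moreover `x` is uniquely determined by `s₁`, as the rational point with the same Kummer classes
modulo 2: every function `f` with `f(x) ≠ 0, ∞` is `f(x)` times the square of an element fixed by `s₁`.

(We allow larger extensions `F₁`, `F₂`. The converse is well known: all sections of the full Galois group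
which arise from rational points can be lifted to the base change.)

For the full birational Galois groups over `k(t)` instead of these two-step 2-extensions, and for
`F' = F_U`, this is the theorem of G. Bresciani (Inventiones 2024). For `F' = F kbar` the theorem is a
global analogue of the `ℤ/p`-metabelian birational `p`-adic section theorem of F. Pop (2010). The proof
does not use the theory of sections over local fields.

The proof. Let `L ⊆ F'` be the fixed field of `s`. Kummer theory for `s₁` gives a homomorphism `κ` from
`L*` to `k* / k*²`, Kummer theory for `s₂` extends it to a homomorphism from `L(t)*` to `k(t)* / k(t)*²`;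
the existence of the lift to the dihedral extensions `√(1 + √(f / g))` shows that the quaternion algebra
`(κ(f) κ(g), κ(g - f) κ(g))` splits. For `f = x - t` and `g = x - c`, `c` in `k`, the residues of
this algebra at the zeros of `κ(x - t)` show that, for two different zeros `θ`, `θ'`, all the
`(θ - c) (θ' - c)` are squares in `k(θ, θ')`. This is false, already for the integers `c`: by the theorem of
Cassels `k(θ, θ')` has an embedding in `ℚ_p` for which `θ - θ'` is a unit, `p` odd. So `κ(x - t)` is constant,
or it is of degree one, a constant times `t - θ`, and then `κ(x - c) = θ - c` for all `c`. The function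
`x ↦ θ` is a place of `L` with values in `k`: additivity is seen from the splitting of the algebras for
`f = x - c`, `g = x + y - c - d`, and the discrete valuations of `k` given by embeddings in `ℚ_p`;
multiplicativity from `κ(x² - c²) = κ(x - c) κ(x + c)`. As `F' = L kbar`, the valuation ring of this place
has only one extension to `F'`, so it is stable under `s`.
-/

set_option autoImplicit false

namespace Pool.Agent.Results.MP_2f3286_ag.LiftableModuloTwo

/-- **Theorem.** Let `k` be a finitely generated field of characteristic zero. Sections of quotients of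
the birational Galois group of a curve over `k` which lift modulo two arise from rational points. -/
theorem result :
  -- a finitely generated field `k`, the function field `F` of a curve over `k` (any extension field of
  -- `k` which is not algebraic is allowed), and an algebraically closed field `Ω` which contains `F`
  ∀ (k F Ω : Type) [Field k] [CharZero k], (⊤ : IntermediateField ℚ k).FG → ∀ [Field F] [Field Ω] [Algebra k F] [Algebra F Ω]
    [Algebra k Ω] [IsScalarTower k F Ω] [IsAlgClosed Ω], (∃ x : F, Transcendental k x) →
  -- a Galois extension `F'` of `F` which contains `kbar`, and a section `s` of `Gal(F'/F) → Gal(kbar/k)`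
  ∀ (F' : IntermediateField F Ω) [IsGalois F F'], (∀ z ∈ algebraicClosure k Ω, z ∈ F') →
  ∀ s : (algebraicClosure k Ω ≃ₐ[k] algebraicClosure k Ω) →* (F' ≃ₐ[F] F'), Continuous s →
  (∀ (g : algebraicClosure k Ω ≃ₐ[k] algebraicClosure k Ω) (x : algebraicClosure k Ω)
    (hx : (x : Ω) ∈ F'), ((s g ⟨x, hx⟩ : F') : Ω) = ((g x : algebraicClosure k Ω) : Ω)) →
  -- a Galois extension `F₁` of `F` which contains `F'` and the square roots of the elements of `F'`,
  -- and a lift `s₁` of `s` to `Gal(F₁/F)`
  ∀ (F₁ : IntermediateField F Ω) [IsGalois F F₁] (hF₁ : F' ≤ F₁), (∀ x : Ω, x ^ 2 ∈ F' → x ∈ F₁) →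
  ∀ s₁ : (algebraicClosure k Ω ≃ₐ[k] algebraicClosure k Ω) →* (F₁ ≃ₐ[F] F₁), Continuous s₁ →
  (∀ (g : algebraicClosure k Ω ≃ₐ[k] algebraicClosure k Ω) (x : F'),
    ((s₁ g ⟨x, hF₁ x.2⟩ : F₁) : Ω) = ((s g x : F') : Ω)) →
  -- an element `t` of `Ω` transcendental over `F`, the fields `K = k(t)` and `E = F(t)`
  ∀ (t : Ω), Transcendental F t →
  ∀ (K : IntermediateField k Ω), K = IntermediateField.adjoin k {t} →
  ∀ (E : IntermediateField F Ω), E = IntermediateField.adjoin F {t} →
  -- a Galois extension `F₂` of `F(t)` which contains `F₁` and all square roots of `p + q r` with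
  -- `p`, `q`, `r ^ 2` in `F'(t)`
  ∀ (F₂ : IntermediateField E Ω) [IsGalois E F₂] (hF₂ : ∀ x ∈ F₁, x ∈ F₂),
  (∀ p q r u : Ω, p ∈ IntermediateField.adjoin F' {t} → q ∈ IntermediateField.adjoin F' {t} →
    r ^ 2 ∈ IntermediateField.adjoin F' {t} → u ^ 2 = p + q * r → u ∈ F₂) →
  -- the base change of `s₁` to `K` lifts to `s₂` on `F₂`: `s₂ g` is `g` on the elements of `F₂` which
  -- are algebraic over `K`, and if the restriction of `g` to `kbar` is `g₀` then the restriction of
  -- `s₂ g` to `F₁` is `s₁ g₀`
  ∀ s₂ : (algebraicClosure K Ω ≃ₐ[K] algebraicClosure K Ω) →* (F₂ ≃ₐ[E] F₂), Continuous s₂ →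
  (∀ (g : algebraicClosure K Ω ≃ₐ[K] algebraicClosure K Ω) (x : algebraicClosure K Ω)
    (hx : (x : Ω) ∈ F₂), ((s₂ g ⟨x, hx⟩ : F₂) : Ω) = ((g x : algebraicClosure K Ω) : Ω)) →
  (∀ (g : algebraicClosure K Ω ≃ₐ[K] algebraicClosure K Ω)
    (g₀ : algebraicClosure k Ω ≃ₐ[k] algebraicClosure k Ω),
    (∀ (x : algebraicClosure k Ω) (y : algebraicClosure K Ω), (y : Ω) = (x : Ω) →
      ((g y : algebraicClosure K Ω) : Ω) = ((g₀ x : algebraicClosure k Ω) : Ω)) →
    ∀ x : F₁, ((s₂ g ⟨x, hF₂ x x.2⟩ : F₂) : Ω) = ((s₁ g₀ x : F₁) : Ω)) →
  -- there is exactly one rational point, with the valuation ring `O` (nontrivial, over `k`, with the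
  -- residue field `k`) such that `s` arises from `O` and `s₁` has the classes of `O` modulo squares
  ∃! O : ValuationSubring F, (O ≠ ⊤ ∧ (∀ c : k, algebraMap k F c ∈ O) ∧
    (∀ a ∈ O, ∃ c : k, O.valuation (a - algebraMap k F c) < 1)) ∧
    (∃ W : ValuationSubring F', W.comap (algebraMap F F') = O ∧
      ∀ (g : algebraicClosure k Ω ≃ₐ[k] algebraicClosure k Ω) (x : F'), (s g x ∈ W ↔ x ∈ W)) ∧
    ∀ (x : F) (c : k), c ≠ 0 → O.valuation (x - algebraMap k F c) < 1 →
      ∃ w : F₁, (∀ g : algebraicClosure k Ω ≃ₐ[k] algebraicClosure k Ω, s₁ g w = w) ∧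
        algebraMap F Ω x = algebraMap k Ω c * (w : Ω) ^ 2 := by
  intro k F Ω _ _ hfg _ _ _ _ _ _ _ hF F' _ hk s hs hsec F₁ _ hF₁ hF₁' s₁ hs₁ hs₁' t ht K hK E hE F₂ _ hF₂
    hF₂' s₂ hs₂ hsec₂ hlift
  have hess : Algebra.EssFiniteType ℚ k := IntermediateField.fg_top_iff.1 hfg
  exact Pool.Agent.Helper88.MU.main Pool.Agent.Helper31.MT.ext (Pool.Agent.Helper88.MU.two k)
    (Pool.Agent.Helper88.MU.lam k) hF F' hk s hs hsec F₁ hF₁ hF₁' s₁ hs₁ hs₁' t ht K hK E hE F₂ hF₂
    hF₂' s₂ hs₂ hsec₂ hlift

end Pool.Agent.Results.MP_2f3286_ag.LiftableModuloTwo
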