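import Pool.Agent.Helper39.FX.Main
import Pool.Agent.Helper88.FX.Crv
import Pool.Agent.Helper88.BL.Final

/-!
# Sections which lift to birational sections over some function field are geometric or cuspidal

Let `k` be a number field (or any finitely generated field of characteristic zero), `U` a smooth
geometrically connected curve over `k`, with the function field `F`, and `F'/F` a Galois extension which
contains the algebraic closure `kbar` of `k` and which is infinite over `F kbar`; for instance the
maximal extension `F_U` of `F` which is unramified over `U`, if `U` is hyperbolic, with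
`Gal(F_U/F) = π₁(U)`, or the maximal pro-`l` extension, or the maximal prosolvable extension, of `F kbar`
in `F_U`. Let `K` be a finitely generated extension of `k` of positive transcendence degree over `ℚ` in
which `k` is algebraically closed: `K = k(t)`, or the function field `k(B)` of any geometrically integral
variety `B` over `k`, of positive dimension, for example `B = U`. Let `E/K` be a function field of one
variable which contains `F`, for example `E = K(U_K)`.

**Theorem.** Every section `s` of `Gal(F'/F) → G_k` whose base change to `K` lifts to a section of the
birational Galois group `G_E → G_K` arises from a rational point of the smooth compactification of `U`: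
there is a nontrivial valuation ring `O` of `F` over `k` with the residue field `k`, and a valuation ring
`W` of `F'` above `O` such that the image of `s` is in the decomposition group of `W`. So for
`F' = F_U` the section `s` is the section of a rational point of `U` or it is cuspidal.

So the section conjecture over number fields is reduced to the lifting property, over any one function
field `K`, which may depend on the section. For `K = k(t)` and `F' = F_U` this is the theorem of
G. Bresciani (Inventiones 2024). For `K = F = k(U)` the condition is that the section of the projection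
`π₁(U × U) → π₁(U)` induced by `s` over `k(U)` lifts to a homomorphism `G_{k(U)} → G_{k(U × U)}`.

The proof. By our theorem on the birational section conjecture over fields of positive transcendence
degree (`MP_8312c9_nt.PositiveTranscendenceDegree`) there is a valuation ring `W` of the algebraic
closure `Ω` of `E` over `Kbar`, with residue field `Kbar`, which is stable under the lift `s'`.
* Suppose that `W` contains `F`. Then it contains `F'`, and the residue map is an embedding of `F'` in
  `Kbar` which is equivariant under the subgroup of `G_K` that fixes `kbar`; so the image is contained in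
  the field `K kbar`. This field is finitely generated over `kbar`, so the elements that are algebraic over
  the image of `F kbar` have bounded degrees, a contradiction to `[F' : F kbar] = ∞`.
* So `O = W ∩ F` is not `F`, it is the valuation ring of a closed point, and the residues of its elements
  are fixed by `G_K`, and algebraic over `k`, so they are in `k`. As `G_K → G_k` is surjective, `W ∩ F'`
  is stable under `s`.
-/

set_option autoImplicit false

namespace Pool.Agent.Results.MP_2f3286_ag.LiftableOverFunctionFields

/-- **Theorem.** Sections of quotients of the birational Galois group of a curve over `k`, in particular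
of the fundamental group of a hyperbolic curve, which lift over some function field `K` to birational
sections arise from rational points of the smooth compactification: they are geometric or cuspidal. -/
theorem result :
  -- the base field `k`, finitely generated over `ℚ`
  ∀ (k : Type) [Field k] [CharZero k], (⊤ : IntermediateField ℚ k).FG →
  -- the extension `K` of `k`, finitely generated, not algebraic over `ℚ`; `k` is algebraically closed in `K`
  ∀ (K : Type) [Field K] [CharZero K] [Algebra k K], (⊤ : IntermediateField k K).FG →
  (∃ x : K, Transcendental ℚ x) → (∀ x : K, IsAlgebraic k x → x ∈ (algebraMap k K).range) →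
  -- the function field `F` of a curve over `k`, the function field `E` of a curve over `K` which
  -- contains `F` (for example of the base change), and an algebraic closure `Ω` of `E`
  ∀ (F E Ω : Type) [Field F] [Field E] [Field Ω] [Algebra k F] [Algebra F E] [Algebra K E]
    [Algebra k Ω] [Algebra K Ω] [Algebra F Ω] [Algebra E Ω] [IsScalarTower k K Ω]
    [IsScalarTower k F Ω] [IsScalarTower K E Ω] [IsScalarTower F E Ω] [IsAlgClosure E Ω],
  (∃ t : F, Transcendental k t ∧ Algebra.IsAlgebraic (IntermediateField.adjoin k {t}) F) →
  (∃ t : E, Transcendental K t ∧ Algebra.IsAlgebraic (IntermediateField.adjoin K {t}) E) →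
  -- a Galois extension `F'` of `F` in `Ω` which contains `kbar` and is infinite over `F kbar`
  ∀ (F' : IntermediateField F Ω) [IsGalois F F']
    (hk : IntermediateField.adjoin F (algebraicClosure k Ω : Set Ω) ≤ F'),
  ¬ FiniteDimensional (IntermediateField.adjoin F (algebraicClosure k Ω : Set Ω))
    (IntermediateField.extendScalars hk) →
  -- a section `s` of `Gal(F'/F) → Gal(kbar/k)`
  ∀ s : (algebraicClosure k Ω ≃ₐ[k] algebraicClosure k Ω) →* (F' ≃ₐ[F] F'), Continuous s →
  (∀ (g : algebraicClosure k Ω ≃ₐ[k] algebraicClosure k Ω) (x : algebraicClosure k Ω)
    (hx : (x : Ω) ∈ F'), ((s g ⟨x, hx⟩ : F') : Ω) = ((g x : algebraicClosure k Ω) : Ω)) →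
  -- a section `s'` of `Gal(Ω/E) → Gal(Kbar/K)` which lifts `s`: if the restriction of `g` to `kbar` is
  -- `g₀` then the restriction of `s' g` to `F'` is `s g₀`
  (∃ s' : (algebraicClosure K Ω ≃ₐ[K] algebraicClosure K Ω) →* (Ω ≃ₐ[E] Ω), Continuous s' ∧
    (∀ (g : algebraicClosure K Ω ≃ₐ[K] algebraicClosure K Ω) (x : algebraicClosure K Ω),
      s' g (x : Ω) = ((g x : algebraicClosure K Ω) : Ω)) ∧
    ∀ (g : algebraicClosure K Ω ≃ₐ[K] algebraicClosure K Ω)
      (g₀ : algebraicClosure k Ω ≃ₐ[k] algebraicClosure k Ω),
      (∀ (x : algebraicClosure k Ω) (y : algebraicClosure K Ω), (y : Ω) = (x : Ω) →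
        ((g y : algebraicClosure K Ω) : Ω) = ((g₀ x : algebraicClosure k Ω) : Ω)) →
      ∀ x : F', s' g (x : Ω) = ((s g₀ x : F') : Ω)) →
  -- the section arises from a rational point, with the valuation ring `O`
  ∃ O : ValuationSubring F, O ≠ ⊤ ∧ (∀ c : k, algebraMap k F c ∈ O) ∧
    (∀ a ∈ O, ∃ c : k, O.valuation (a - algebraMap k F c) < 1) ∧
    ∃ W : ValuationSubring F', W.comap (algebraMap F F') = O ∧
      ∀ (g : algebraicClosure k Ω ≃ₐ[k] algebraicClosure k Ω) (x : F'), (s g x ∈ W ↔ x ∈ W) := by
  intro k _ _ hk K _ _ _ hK hK1 hkK F E Ω _ _ _ _ _ _ _ _ _ _ _ _ _ _ _ hF hE F' _ hle hinf s hs hsec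
    ⟨s', hs', hsec', hlift⟩
  exact Pool.Agent.Helper88.BL.final Pool.Agent.Helper88.FX.Crv.main
    Pool.Agent.Helper39.FX.allc_main hk hK hK1 hkK hF hE F' hle hinf ⟨s, hs, hsec⟩
    ⟨s', hs', hsec'⟩ hlift

end Pool.Agent.Results.MP_2f3286_ag.LiftableOverFunctionFields
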