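import Pool.Agent.Helper39.AD.Fin2

/-!
# Galois sections over an arbitrary number field: one Kummer class decides

Let `k` be a number field of degree `n` over `ℚ`, `F/k` the function field of a curve, and `s` a section of
the birational Galois group `G_F → G_k`. Every `g` in `F`, not zero, has a Kummer class
`s^*(g) ∈ lim k^×/k^{×N}`. It has an order in `Ẑ` at every finite place of `k`, and a norm in
`lim ℚ^×/ℚ^{×N}`. If `s` comes from a rational point `x`, and `g` has neither a zero nor a pole at `x`, then
`s^*(g)` is the class of `g(x)`: so its orders are integers, almost all of them zero, and its norm is a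
rational number. We show the converse, for one class, and finitely many places can be ignored:

**Theorem.** Equivalent are:
* `s` comes from a rational point (exactly one);
* for some nonconstant `f` in `F` the orders of the class of the one function `f (f - 1) ... (f - 2n)` are
  integers, and bounded;
* for some nonconstant `f` in `F`, some `M` and some set of at most `M - 2n - 1` places, the orders of the
  class of `f (f - 1) ... (f - M + 1)` at all the other places are integers, and bounded (for example zero);
* for some nonconstant `f` in `F` the norms to `ℚ` of the classes of `1 - f`, `1 - 2f`, ..., `1 - 2nf` are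
  rational numbers.

So a section of the fundamental group `π₁(U)` of a hyperbolic curve `U` over `k`, or of any other quotient
`Gal(N/F)` of `G_F`, which lifts to such a section of `G_F` is geometric or cuspidal.

By Koenigsmann's theorem `s` has a local point `x_v` at every finite place `v` of `k`, and the order of
`s^*(g)` at `v` is the order of `g(x_v)` if `x_v` is neither a zero nor a pole of `g`. A section is called
birationally adelic by J. Stix if no `x_v` is a zero or a pole of a function `g`, and `g(x_v)` is a unit for
almost all `v`, for all `g`; then all classes have integral orders, almost all zero. Stix (On the birational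
section conjecture with local conditions, Inventiones 2015) proved that birationally adelic sections are
geometric if `k` is totally real or imaginary quadratic. Here `k` is an arbitrary number field, there is no
condition on the local points, only one class is used, and there is no condition at all at finitely many
places.

The proof. Suppose that the orders of the class of the product are integers, and bounded, at the places
which are not in the finite set `T`. The class modulo `N`-th powers is the class of an element of `k`, so
almost all orders are divisible by `N`, and so they are zero. The same follows for the classes of the factors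
`f - c`: if `x_v` has the coordinate `u = f(x_v)`, the orders of the `u - c` are all negative or all `≥ 0`;
the cases of the coordinates `c` and infinity are treated separately. At a place in `T` the quotients
`(f - c) / (f - c')` have finite nonzero values at `x_v`, except for at most one number `c`, the
coordinate of `x_v`. So there are `2n + 1` numbers `c` for which the classes of these quotients have
divisors which are fractional ideals. The units of `k` are the obstacle to conclude that the classes are
classes of elements of `k`. But their norms to `ℚ` are rational numbers, up to sign.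
At an embedding of the normal closure of `k` in a local field `L` the `n` embeddings of `k` give local
coordinates `x_σ ∈ L ∪ {∞}`, and the values of the polynomial `∏ (T - x_σ)` (over the finite `x_σ`) at
these `c` are zero or proportional to rational numbers `r_c` which do not depend on `L`, since no element
of `L` other than `1` is infinitely divisible. By interpolation, `2n + 1` values determine the
polynomial, if it exists, up to a constant. So the values of `f` at all places are roots of one polynomial
`Ψ` over `ℚ`. Then the function `Ψ(f) / (f - e) ^ (deg Ψ + 1)` vanishes at all local points, and it follows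
that `s` comes from a point.
-/

set_option autoImplicit false

open NumberField IsDedekindDomain

namespace Pool.Agent.Results.MP_2f3286_ag.OneKummerClass

/-- Let `F` be an extension of `k`, `Ω` an algebraic closure of `F`, and `kbar` the algebraic closure
of `k` in `Ω`. A section of the restriction map `Gal(Ω/F) → Gal(kbar/k)`: a continuous homomorphism
`hom` such that `hom g` is `g` on `kbar`. -/
structure GaloisSection (k F Ω : Type) [Field k] [Field F] [Field Ω] [Algebra k Ω] [Algebra F Ω] where
  /-- the homomorphism -/
  hom : (algebraicClosure k Ω ≃ₐ[k] algebraicClosure k Ω) →* (Ω ≃ₐ[F] Ω)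
  cont : Continuous hom
  sec : ∀ (g : algebraicClosure k Ω ≃ₐ[k] algebraicClosure k Ω) (x : algebraicClosure k Ω),
    hom g (x : Ω) = ((g x : algebraicClosure k Ω) : Ω)

variable {k F Ω : Type} [Field k] [Field F] [Field Ω] [Algebra k Ω] [Algebra F Ω]

/-- A rational point of the smooth projective curve with function field `F`: a nontrivial valuation
ring `O` of `F` over `k` with residue field `k`. -/
def IsRationalPoint (k : Type) {F : Type} [Field k] [Field F] [Algebra k F]
    (O : ValuationSubring F) : Prop :=
  O ≠ ⊤ ∧ (∀ c : k, algebraMap k F c ∈ O) ∧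
    ∀ a ∈ O, ∃ c : k, O.valuation (a - algebraMap k F c) < 1

/-- The section arises from the rational point with the valuation ring `O`: the automorphisms `hom g`
map some valuation ring `W` of `Ω` above `O` to itself. -/
def GaloisSection.ArisesFrom [Algebra k F] (s : GaloisSection k F Ω) (O : ValuationSubring F) : Prop :=
  IsRationalPoint k O ∧
    ∃ W : ValuationSubring Ω, W.comap (algebraMap F Ω) = O ∧
      ∀ (g : algebraicClosure k Ω ≃ₐ[k] algebraicClosure k Ω) (x : Ω), (s.hom g x ∈ W ↔ x ∈ W)

/-- The nonzero element `a` of `k` represents the Kummer class of `g` at the section, modulo `N`-th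
powers: `g / a` is the `N`-th power of an element of `Ω` which is fixed by the image of the section. -/
def GaloisSection.Represents (s : GaloisSection k F Ω) (g : F) (N : ℕ) (a : k) : Prop :=
  a ≠ 0 ∧ ∃ h : Ω, (∀ σ, s.hom σ h = h) ∧ algebraMap F Ω g = algebraMap k Ω a * h ^ N

/-- The orders of the Kummer class of `g` at the finite places `v` of `k` which are not in the set `T`
are bounded integers `d v`: the orders of the representatives modulo `N`-th powers are `d v` modulo `N`,
for all `N ≥ 1`. -/
def GaloisSection.HasBoundedOrders [NumberField k] (s : GaloisSection k F Ω) (g : F)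
    (T : Finset (HeightOneSpectrum (𝓞 k))) : Prop :=
  ∃ d : HeightOneSpectrum (𝓞 k) → ℤ, (∃ b : ℤ, ∀ v ∉ T, |d v| ≤ b) ∧
    ∀ N : ℕ, 0 < N → ∀ a : k, s.Represents g N a →
      ∀ v ∉ T, ∃ m : ℤ, v.valuation k a = WithZero.exp (-(d v + N * m))

/-- The norm of the Kummer class of `g` at the section is a rational number `r ≠ 0`: for all `N ≥ 1` the
representatives modulo `N`-th powers have norms `r t ^ N`. -/
def GaloisSection.HasRationalNorm [NumberField k] (s : GaloisSection k F Ω) (g : F) : Prop :=
  ∃ r : ℚ, r ≠ 0 ∧ ∀ N : ℕ, 0 < N → ∀ a : k, s.Represents g N a →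
    ∃ t : ℚ, Algebra.norm ℚ a = r * t ^ N

section

open Pool.Agent.TH954 Pool.Agent.Helper39.AD

/-- the section in the sense of the library -/
def toGal (s : GaloisSection k F Ω) : GalSection k F Ω (algebraicClosure k Ω) where
  j := (algebraicClosure k Ω).val
  s := s.hom
  cont := s.cont
  sec := s.sec

lemma arises_iff [Algebra k F] (s : GaloisSection k F Ω) (O : ValuationSubring F) :
    s.ArisesFrom O ↔ (toGal s).ArisesFrom O := by
  unfold GaloisSection.ArisesFrom IsRationalPoint
  constructor
  · rintro ⟨⟨h1, h2, h3⟩, h4⟩
    exact ⟨h1, h2, h3, h4⟩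
  · rintro ⟨h1, h2, h3, h4⟩
    exact ⟨⟨h1, h2, h3⟩, h4⟩

lemma ord_iff [NumberField k] (s : GaloisSection k F Ω) (g : F)
    (T : Finset (HeightOneSpectrum (𝓞 k))) : s.HasBoundedOrders g T ↔
      ∃ d : HeightOneSpectrum (𝓞 k) → ℤ, (∃ b : ℤ, ∀ v ∉ T, |d v| ≤ b) ∧
        OrdOut (toGal s) g T d := by
  unfold GaloisSection.HasBoundedOrders OrdOut GaloisSection.Represents
  constructor
  · rintro ⟨d, hb, h⟩
    exact ⟨d, hb, fun N hN a ha h1 => h N hN a ⟨ha, h1⟩⟩
  · rintro ⟨d, hb, h⟩
    exact ⟨d, hb, fun N hN a h1 => h N hN a h1.1 h1.2⟩

lemma rn_iff [NumberField k] (s : GaloisSection k F Ω) (g : F) :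
    s.HasRationalNorm g ↔ RN (toGal s) g := by
  unfold GaloisSection.HasRationalNorm RN GaloisSection.Represents
  constructor
  · rintro ⟨r, hr, h⟩
    exact ⟨r, hr, fun N hN a ha h1 => h N hN a ⟨ha, h1⟩⟩
  · rintro ⟨r, hr, h⟩
    exact ⟨r, hr, fun N hN a h1 => h N hN a h1.1 h1.2⟩

end

/-- **Theorem.** Let `k` be a number field of degree `n`, `F` the function field of a curve over `k`, and
`s` a section of `G_F → G_k`. The section arises from a rational point if and only if for some nonconstant
`f` in `F` the orders of the Kummer class of the one function `f (f - 1) ... (f - 2n)` at `s` are bounded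
integers; if and only if this is true for the class of `f (f - 1) ... (f - M + 1)` at all but at most
`M - 2n - 1` places, for some nonconstant `f` and some `M`; and if and only if for some nonconstant `f` the
norms to `ℚ` of the Kummer classes of `1 - f, ..., 1 - 2n f` are rational numbers. In this case, for every
Galois extension `N` of `F`, for example with `Gal(N/F) = π₁(U)` for a hyperbolic curve `U`, the section
`s₀` of `Gal(N/F) → G_k` which is lifted by `s` arises from the rational point, that is, it is geometric or
cuspidal. -/
theorem result (k : Type) [Field k] [NumberField k] (F Ω : Type) [Field F] [Field Ω] [Algebra k F]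
    [Algebra F Ω] [Algebra k Ω] [IsScalarTower k F Ω] [IsAlgClosure F Ω]
    (hF : ∃ t : F, Transcendental k t ∧ Algebra.IsAlgebraic (IntermediateField.adjoin k {t}) F)
    (s : GaloisSection k F Ω) :
    [∃! O : ValuationSubring F, s.ArisesFrom O,
      ∃ f : F, Transcendental k f ∧
        s.HasBoundedOrders (∏ c ∈ Finset.range (2 * Module.finrank ℚ k + 1), (f - (c : F))) ∅,
      ∃ f : F, Transcendental k f ∧ ∃ (M : ℕ) (T : Finset (HeightOneSpectrum (𝓞 k))),
        T.card + (2 * Module.finrank ℚ k + 1) ≤ M ∧
          s.HasBoundedOrders (∏ c ∈ Finset.range M, (f - (c : F))) T,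
      ∃ f : F, Transcendental k f ∧
        ∀ c ∈ Finset.range (2 * Module.finrank ℚ k + 1), s.HasRationalNorm (1 - (c : F) * f)].TFAE ∧
    ∀ (N : IntermediateField F Ω) [IsGalois F N]
      (s₀ : (algebraicClosure k Ω ≃ₐ[k] algebraicClosure k Ω) →* (N ≃ₐ[F] N)),
      (∀ (g : algebraicClosure k Ω ≃ₐ[k] algebraicClosure k Ω) (x : N),
        s.hom g (x : Ω) = ((s₀ g x : N) : Ω)) →
      ∀ O : ValuationSubring F, s.ArisesFrom O →
        ∃ W : ValuationSubring N, W.comap (algebraMap F N) = O ∧
          ∀ (g : algebraicClosure k Ω ≃ₐ[k] algebraicClosure k Ω) (x : N), (s₀ g x ∈ W ↔ x ∈ W) := by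
  have hcF : CharZero F := charZero_of_injective_algebraMap (algebraMap k F).injective
  have hΩ1 : IsAlgClosed Ω := IsAlgClosure.isAlgClosed F
  have hdown : (∃! O : ValuationSubring F, (toGal s).ArisesFrom O) →
      ∃! O : ValuationSubring F, s.ArisesFrom O := by
    rintro ⟨O, hO, hu⟩
    exact ⟨O, (arises_iff s O).2 hO, fun O' hO' => hu O' ((arises_iff s O').1 hO')⟩
  refine ⟨?_, ?_⟩
  · tfae_have 1 → 2 := by
      rintro ⟨O, hO, -⟩
      obtain ⟨f, hf, h⟩ := Pool.Agent.Helper39.AD.conv (toGal s) ((arises_iff s O).1 hO)
      obtain ⟨d, hd, b, hb⟩ := Pool.Agent.Helper39.AD.ord_of_hi (toGal s)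
        ((Pool.Agent.Helper39.AD.hi_prod_iff (toGal s) hf
          (Nat.succ_pos (2 * Module.finrank ℚ k))).2 h)
      exact ⟨f, hf, (ord_iff s _ ∅).2 ⟨d, ⟨b, fun v _ => hb v⟩,
        fun N hN a ha hh v _ => hd N hN a ha hh v⟩⟩
    tfae_have 2 → 3 := by
      rintro ⟨f, hf, h⟩
      exact ⟨f, hf, 2 * Module.finrank ℚ k + 1, ∅, by simp, h⟩
    tfae_have 3 → 1 := by
      rintro ⟨f, hf, M, T, hM, h⟩
      obtain ⟨d, ⟨b, hb⟩, hd⟩ := (ord_iff s _ T).1 h
      exact hdown (Pool.Agent.Helper39.AD.of_orders (toGal s) hF hf T hM hb hd)
    tfae_have 1 → 4 := by
      rintro ⟨O, hO, -⟩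
      obtain ⟨f, hf, h⟩ := Pool.Agent.Helper39.AD.conv2 (toGal s) ((arises_iff s O).1 hO)
      exact ⟨f, hf, fun c _ => (rn_iff s _).2 (h c)⟩
    tfae_have 4 → 1 := by
      rintro ⟨f, hf, h⟩
      exact hdown (Pool.Agent.Helper39.AD.fwd2 (toGal s) hF hf
        (fun c hc => (rn_iff s _).1 (h c (Finset.mem_range.2 hc))))
    tfae_finish
  · intro N _ s₀ hs₀ O hO
    obtain ⟨-, W, hWO, hW⟩ := hO
    refine ⟨W.comap (algebraMap N Ω), ?_, ?_⟩
    · rw [← hWO]
      rfl
    · intro g x
      have h1 := hW g (x : Ω)
      rw [hs₀] at h1
      exact h1

end Pool.Agent.Results.MP_2f3286_ag.OneKummerClass
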